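import Pool.Agent.AsixH70.Defs

namespace Pool.Agent.AsixH70
open Finset

/-- the nine arrangements of the six atoms -/
def sg (i j : Fin 3) (t : ZMod 6) : ZMod 6 :=
  if t.val % 2 = 0 then t + 2 * (i.val : ZMod 6) else t + 2 * (j.val : ZMod 6)

set_option maxRecDepth 100000 in
theorem sg_inj : ∀ i j : Fin 3, ∀ t t' : ZMod 6, sg i j t = sg i j t' → t = t' := by decide

set_option maxRecDepth 100000 in
theorem sg_eq : ∀ i j i' j' : Fin 3, sg i j 0 = sg i' j' 0 → sg i j 1 = sg i' j' 1 →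
    i = i' ∧ j = j' := by decide

set_option maxRecDepth 100000 in
theorem sg_kill' : ∀ i j i' j' : Fin 3, ∀ c : ZMod 6, ∃ t : ZMod 6,
    (((sg i j t).val % 2 = 0 ∧ (sg i' j' t).val % 2 = 0 ∧ c.val % 2 = 0 ∧
      sg i j t + sg i' j' t + c = 2) ∨
     ((sg i j t).val % 2 = 1 ∧ (sg i' j' t).val % 2 = 1 ∧ c.val % 2 = 1 ∧
      sg i j t + sg i' j' t + c = 5)) := by decide

theorem sg_kill (i j i' j' : Fin 3) (c : ZMod 6) : ∃ t : ZMod 6,
    Forbidden (sg i j t) (sg i' j' t) c := by
  obtain ⟨t, ht⟩ := sg_kill' i j i' j' c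
  exact ⟨t, (forbidden_iff _ _ _).2 ht⟩

noncomputable def sgEquiv (i j : Fin 3) : ZMod 6 ≃ ZMod 6 :=
  Equiv.ofBijective (sg i j)
    ((Fintype.bijective_iff_injective_and_card _).2 ⟨fun _ _ h => sg_inj i j _ _ h, rfl⟩)

variable {U : Type*} (R : Representation U)

/-- the nine boxes of all points are pairwise disjoint -/
theorem box_disjoint (z : ZMod 6 → U) (x y : U) (i j i' j' : Fin 3)
    (hx : ∀ t, z t ≠ x ∧ R.col x (z t) = sg i j t)
    (hy : ∀ t, z t ≠ y ∧ R.col y (z t) = sg i' j' t) : x = y ∧ i = i' ∧ j = j' := by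
  have hxy : x = y := by
    by_contra hne
    obtain ⟨t, ht⟩ := sg_kill i j i' j' (R.col x y)
    have := R.consistent x (z t) y (hx t).1.symm (hy t).1 hne
    rw [(hx t).2, R.symm (z t) y, (hy t).2] at this
    exact this ht
  subst hxy
  refine ⟨rfl, sg_eq i j i' j' ?_ ?_⟩
  · rw [← (hx 0).2, ← (hy 0).2]
  · rw [← (hx 1).2, ← (hy 1).2]

/-- **Box inequality** for finitely additive probability measures. -/
theorem box_ineq (μ : Set U → ℝ) (h0 : ∀ A, 0 ≤ μ A) (h1 : μ Set.univ = 1)
    (hadd : ∀ A B, Disjoint A B → μ (A ∪ B) = μ A + μ B) (F : Finset U) :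
    9 * ∑ x ∈ F, ∏ t : ZMod 6, μ {z | z ≠ x ∧ R.col x z = t} ≤ 1 := by
  classical
  have hemp : μ ∅ = 0 := by
    have := hadd ∅ ∅ (by simp)
    simp at this
    linarith
  let pr : U → (F → Option (ZMod 6)) := fun z x => if z = x then none else some (R.col x z)
  let w : (F → Option (ZMod 6)) → ℝ := fun p => μ (pr ⁻¹' {p})
  have hA : ∀ S : Finset (F → Option (ZMod 6)), μ (pr ⁻¹' (S : Set _)) = ∑ p ∈ S, w p := by
    intro S
    induction S using Finset.induction_on with
    | empty => simp [hemp]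
    | insert a S ha ih =>
      rw [Finset.sum_insert ha, ← ih, Finset.coe_insert, Set.insert_eq, Set.preimage_union]
      refine hadd _ _ ?_
      rw [Set.disjoint_left]
      intro z hz hz'
      simp only [Set.mem_preimage, Set.mem_singleton_iff, Finset.mem_coe] at hz hz'
      exact ha (hz ▸ hz')
  have hC : ∑ p, w p = 1 := by
    rw [← hA]; simp [h1]
  let S : F → ZMod 6 → Finset (F → Option (ZMod 6)) := fun x t => univ.filter (fun p => p x = some t)
  have hB : ∀ (x : F) (t : ZMod 6), μ {z | z ≠ x ∧ R.col x z = t} = ∑ p ∈ S x t, w p := by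
    intro x t
    rw [← hA]
    congr 1
    ext z
    simp only [S, pr, Set.mem_setOf_eq, Set.mem_preimage, Finset.coe_filter, Finset.mem_univ,
      true_and]
    by_cases h : z = x
    · simp [h]
    · simp [h]
  have hprod : ∀ (x : F) (i j : Fin 3), ∏ t : ZMod 6, μ {z | z ≠ x ∧ R.col x z = t} =
      ∑ q : ZMod 6 → (F → Option (ZMod 6)),
        if (∀ t, q t ∈ S x (sg i j t)) then ∏ t, w (q t) else 0 := by
    intro x i j
    rw [← Equiv.prod_comp (sgEquiv i j)]
    have : ∀ t, μ {z | z ≠ x ∧ R.col x z = sgEquiv i j t} = ∑ p ∈ S x (sg i j t), w p :=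
      fun t => hB x _
    simp only [this]
    rw [Finset.prod_univ_sum, ← Finset.sum_filter]
    refine Finset.sum_congr ?_ fun _ _ => rfl
    ext q
    simp [Fintype.mem_piFinset]
  have hone : ∀ q : ZMod 6 → (F → Option (ZMod 6)),
      ∑ a : F × (Fin 3 × Fin 3), (if (∀ t, q t ∈ S a.1 (sg a.2.1 a.2.2 t)) then ∏ t, w (q t) else 0)
        ≤ ∏ t, w (q t) := by
    intro q
    by_cases hz : ∏ t, w (q t) = 0
    · simp [hz]
    have hz' : ∀ t, ∃ z, pr z = q t := by
      intro t
      by_contra hno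
      push Not at hno
      apply hz
      apply Finset.prod_eq_zero (Finset.mem_univ t)
      change μ (pr ⁻¹' {q t}) = 0
      have : pr ⁻¹' {q t} = ∅ := by
        ext z; simp [hno z]
      rw [this, hemp]
    choose z hzq using hz'
    rw [← Finset.sum_filter, Finset.sum_const, nsmul_eq_mul]
    have hcard : (univ.filter (fun a : F × (Fin 3 × Fin 3) =>
        ∀ t, q t ∈ S a.1 (sg a.2.1 a.2.2 t))).card ≤ 1 := by
      rw [Finset.card_le_one]
      rintro ⟨x, i, j⟩ hx ⟨y, i', j'⟩ hy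
      simp only [S, Finset.mem_filter, Finset.mem_univ, true_and] at hx hy
      have conv : ∀ (x : F) (c t : ZMod 6), q t x = some c → z t ≠ x ∧ R.col x (z t) = c := by
        intro x c t h
        rw [← hzq t] at h
        simp only [pr] at h
        by_cases hh : z t = x
        · simp [hh] at h
        · simp only [hh, if_false, Option.some.injEq] at h
          exact ⟨hh, h⟩
      obtain ⟨e1, e2, e3⟩ := box_disjoint R z x y i j i' j' (fun t => conv x _ t (hx t))
        (fun t => conv y _ t (hy t))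
      have e1' : x = y := Subtype.ext e1
      rw [e1', e2, e3]
    have hnn : 0 ≤ ∏ t, w (q t) := Finset.prod_nonneg fun t _ => h0 _
    calc _ ≤ (1 : ℝ) * ∏ t, w (q t) := by
          apply mul_le_mul_of_nonneg_right _ hnn
          exact_mod_cast hcard
      _ = _ := one_mul _
  calc 9 * ∑ x ∈ F, ∏ t : ZMod 6, μ {z | z ≠ x ∧ R.col x z = t}
      = ∑ a : F × (Fin 3 × Fin 3), ∏ t : ZMod 6, μ {z | z ≠ a.1 ∧ R.col a.1 z = t} := by
        rw [Fintype.sum_prod_type, ← Finset.sum_coe_sort F, Finset.mul_sum]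
        refine Finset.sum_congr rfl fun x _ => ?_
        simp only [Finset.sum_const, Finset.card_univ, Fintype.card_prod, Fintype.card_fin,
          nsmul_eq_mul]
        norm_num
    _ = ∑ a : F × (Fin 3 × Fin 3), ∑ q : ZMod 6 → (F → Option (ZMod 6)),
        (if (∀ t, q t ∈ S a.1 (sg a.2.1 a.2.2 t)) then ∏ t, w (q t) else 0) :=
        Finset.sum_congr rfl fun a _ => hprod a.1 a.2.1 a.2.2
    _ = ∑ q : ZMod 6 → (F → Option (ZMod 6)), ∑ a : F × (Fin 3 × Fin 3),
        (if (∀ t, q t ∈ S a.1 (sg a.2.1 a.2.2 t)) then ∏ t, w (q t) else 0) := Finset.sum_comm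
    _ ≤ ∑ q : ZMod 6 → (F → Option (ZMod 6)), ∏ t, w (q t) :=
        Finset.sum_le_sum fun q _ => hone q
    _ = ∏ _t : ZMod 6, ∑ p, w p := by
        rw [Finset.prod_univ_sum]
        simp
    _ = 1 := by rw [hC]; simp

end Pool.Agent.AsixH70
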