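import Pool.Agent.RA6.RepU99

/-!
The nine boxes of every point of a representation of `A_6([i,i,i+2])`, for six finitely additive
probability measures.
-/

namespace Pool.Agent.AsixH70

open Set Pool.Agent.RA6 Pool.Agent.RA6U

universe u

/-- A finitely additive probability measure defined on all subsets of `U`. -/
structure IsMean {U : Type u} (m : Set U → ℝ) : Prop where
  nonneg : ∀ A, 0 ≤ m A
  univ_eq : m Set.univ = 1
  add : ∀ A B, Disjoint A B → m (A ∪ B) = m A + m B

/-- The nine arrangements of the six atoms: the even indices are shifted by `2 j`, the odd ones by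
`2 k`. -/
def arr (j k : Fin 3) (i : ZMod 6) : ZMod 6 :=
  if i.val % 2 = 0 then i + 2 * (j.val : ZMod 6) else i + 2 * (k.val : ZMod 6)

set_option maxRecDepth 100000 in
theorem forb_iff : ∀ a b c : ZMod 6, Forbidden a b c ↔
    ((a.val % 2 = 0 ∧ b.val % 2 = 0 ∧ c.val % 2 = 0 ∧ a + b + c = 2) ∨
     (a.val % 2 = 1 ∧ b.val % 2 = 1 ∧ c.val % 2 = 1 ∧ a + b + c = 5)) := by
  decide

set_option maxRecDepth 100000 in
theorem arr_eq : ∀ i j i' j' : Fin 3, arr i j 0 = arr i' j' 0 → arr i j 1 = arr i' j' 1 →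
    i = i' ∧ j = j' := by decide

set_option maxRecDepth 100000 in
theorem arr_kill' : ∀ i j i' j' : Fin 3, ∀ c : ZMod 6, ∃ t : ZMod 6,
    (((arr i j t).val % 2 = 0 ∧ (arr i' j' t).val % 2 = 0 ∧ c.val % 2 = 0 ∧
      arr i j t + arr i' j' t + c = 2) ∨
     ((arr i j t).val % 2 = 1 ∧ (arr i' j' t).val % 2 = 1 ∧ c.val % 2 = 1 ∧
      arr i j t + arr i' j' t + c = 5)) := by decide

theorem arr_kill (i j i' j' : Fin 3) (c : ZMod 6) : ∃ t : ZMod 6,
    Forbidden (arr i j t) (arr i' j' t) c := by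
  obtain ⟨t, ht⟩ := arr_kill' i j i' j' c
  exact ⟨t, (forb_iff _ _ _).2 ht⟩

section
variable {U : Type u} {c : U → U → ZMod 6}

/-- the nine boxes of all points are pairwise disjoint -/
theorem boxes_disjoint (h : IsColouring c) (z : ZMod 6 → U) (x y : U) (i j i' j' : Fin 3)
    (hx : ∀ t, x ≠ z t ∧ c x (z t) = arr i j t)
    (hy : ∀ t, y ≠ z t ∧ c y (z t) = arr i' j' t) : x = y ∧ i = i' ∧ j = j' := by
  have hxy : x = y := by
    by_contra hne
    obtain ⟨t, ht⟩ := arr_kill i j i' j' (c x y)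
    have := h.no_forb x (z t) y (hx t).1 (hy t).1.symm hne
    rw [(hx t).2, ← h.symm y (z t) (hy t).1, (hy t).2] at this
    exact this ht
  subst hxy
  refine ⟨rfl, arr_eq i j i' j' ?_ ?_⟩
  · rw [← (hx 0).2, ← (hy 0).2]
  · rw [← (hx 1).2, ← (hy 1).2]

theorem boxes_le (h : IsColouring c) (m : ZMod 6 → Set U → ℝ) (hm : ∀ i, IsMean (m i))
    (F : Finset U) :
    ∑ x ∈ F, ∑ j : Fin 3, ∑ k : Fin 3, ∏ i : ZMod 6, m i {z | x ≠ z ∧ c x z = arr j k i} ≤ 1 := by
  classical
  have hemp : ∀ i, m i ∅ = 0 := by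
    intro i
    have := (hm i).add ∅ ∅ (by simp)
    simp at this
    linarith
  let pr : U → (F → Option (ZMod 6)) := fun z x => if z = x then none else some (c x z)
  let w : ZMod 6 → (F → Option (ZMod 6)) → ℝ := fun i p => m i (pr ⁻¹' {p})
  have hA : ∀ i, ∀ S : Finset (F → Option (ZMod 6)),
      m i (pr ⁻¹' (S : Set _)) = ∑ p ∈ S, w i p := by
    intro i S
    induction S using Finset.induction_on with
    | empty => simp [hemp]
    | insert a S ha ih =>
      rw [Finset.sum_insert ha, ← ih, Finset.coe_insert, Set.insert_eq, Set.preimage_union]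
      refine (hm i).add _ _ ?_
      rw [Set.disjoint_left]
      intro z hz hz'
      simp only [Set.mem_preimage, Set.mem_singleton_iff, Finset.mem_coe] at hz hz'
      exact ha (hz ▸ hz')
  have hC : ∀ i, ∑ p, w i p = 1 := by
    intro i
    rw [← hA]; simp [(hm i).univ_eq]
  let S : F → ZMod 6 → Finset (F → Option (ZMod 6)) :=
    fun x t => Finset.univ.filter (fun p => p x = some t)
  have hB : ∀ (i : ZMod 6) (x : F) (t : ZMod 6),
      m i {z | (x : U) ≠ z ∧ c x z = t} = ∑ p ∈ S x t, w i p := by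
    intro i x t
    rw [← hA]
    congr 1
    ext z
    simp only [S, pr, Set.mem_setOf_eq, Set.mem_preimage, Finset.coe_filter, Finset.mem_univ,
      true_and]
    by_cases h : z = x
    · simp [h]
    · have h' : (x : U) ≠ z := fun e => h e.symm
      simp [h, h']
  have hprod : ∀ (x : F) (j k : Fin 3),
      ∏ t : ZMod 6, m t {z | (x : U) ≠ z ∧ c x z = arr j k t} =
      ∑ q : ZMod 6 → (F → Option (ZMod 6)),
        if (∀ t, q t ∈ S x (arr j k t)) then ∏ t, w t (q t) else 0 := by
    intro x j k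
    have : ∀ t, m t {z | (x : U) ≠ z ∧ c x z = arr j k t} = ∑ p ∈ S x (arr j k t), w t p :=
      fun t => hB t x _
    simp only [this]
    rw [Finset.prod_univ_sum, ← Finset.sum_filter]
    refine Finset.sum_congr ?_ fun _ _ => rfl
    ext q
    simp [Fintype.mem_piFinset]
  have hone : ∀ q : ZMod 6 → (F → Option (ZMod 6)),
      ∑ a : F × (Fin 3 × Fin 3),
        (if (∀ t, q t ∈ S a.1 (arr a.2.1 a.2.2 t)) then ∏ t, w t (q t) else 0)
        ≤ ∏ t, w t (q t) := by
    intro q
    by_cases hz : ∏ t, w t (q t) = 0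
    · simp [hz]
    have hz' : ∀ t, ∃ z, pr z = q t := by
      intro t
      by_contra hno
      push Not at hno
      apply hz
      apply Finset.prod_eq_zero (Finset.mem_univ t)
      change m t (pr ⁻¹' {q t}) = 0
      have : pr ⁻¹' {q t} = ∅ := by
        ext z; simp [hno z]
      rw [this, hemp]
    choose z hzq using hz'
    rw [← Finset.sum_filter, Finset.sum_const, nsmul_eq_mul]
    have hcard : (Finset.univ.filter (fun a : F × (Fin 3 × Fin 3) =>
        ∀ t, q t ∈ S a.1 (arr a.2.1 a.2.2 t))).card ≤ 1 := by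
      rw [Finset.card_le_one]
      rintro ⟨x, i, j⟩ hx ⟨y, i', j'⟩ hy
      simp only [S, Finset.mem_filter, Finset.mem_univ, true_and] at hx hy
      have conv : ∀ (x : F) (a t : ZMod 6), q t x = some a → (x : U) ≠ z t ∧ c x (z t) = a := by
        intro x a t h
        rw [← hzq t] at h
        simp only [pr] at h
        by_cases hh : z t = x
        · simp [hh] at h
        · simp only [hh, if_false, Option.some.injEq] at h
          exact ⟨fun e => hh e.symm, h⟩
      obtain ⟨e1, e2, e3⟩ := boxes_disjoint h z x y i j i' j' (fun t => conv x _ t (hx t))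
        (fun t => conv y _ t (hy t))
      have e1' : x = y := Subtype.ext e1
      rw [e1', e2, e3]
    have hnn : 0 ≤ ∏ t, w t (q t) := Finset.prod_nonneg fun t _ => (hm t).nonneg _
    calc _ ≤ (1 : ℝ) * ∏ t, w t (q t) := by
          apply mul_le_mul_of_nonneg_right _ hnn
          exact_mod_cast hcard
      _ = _ := one_mul _
  calc ∑ x ∈ F, ∑ j : Fin 3, ∑ k : Fin 3, ∏ i : ZMod 6, m i {z | x ≠ z ∧ c x z = arr j k i}
      = ∑ a : F × (Fin 3 × Fin 3),
          ∏ t : ZMod 6, m t {z | (a.1 : U) ≠ z ∧ c a.1 z = arr a.2.1 a.2.2 t} := by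
        rw [Fintype.sum_prod_type, ← Finset.sum_coe_sort F]
        refine Finset.sum_congr rfl fun x _ => ?_
        rw [Fintype.sum_prod_type]
    _ = ∑ a : F × (Fin 3 × Fin 3), ∑ q : ZMod 6 → (F → Option (ZMod 6)),
        (if (∀ t, q t ∈ S a.1 (arr a.2.1 a.2.2 t)) then ∏ t, w t (q t) else 0) :=
        Finset.sum_congr rfl fun a _ => hprod a.1 a.2.1 a.2.2
    _ = ∑ q : ZMod 6 → (F → Option (ZMod 6)), ∑ a : F × (Fin 3 × Fin 3),
        (if (∀ t, q t ∈ S a.1 (arr a.2.1 a.2.2 t)) then ∏ t, w t (q t) else 0) := Finset.sum_comm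
    _ ≤ ∑ q : ZMod 6 → (F → Option (ZMod 6)), ∏ t, w t (q t) :=
        Finset.sum_le_sum fun q _ => hone q
    _ = ∏ t : ZMod 6, ∑ p, w t p := by
        rw [Finset.prod_univ_sum]
        simp
    _ = 1 := by simp [hC]

end

end Pool.Agent.AsixH70
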