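import Pool.Agent.AsixH70.Defs

namespace Pool.Agent.AsixH70
open Finset

set_option maxRecDepth 100000 in
theorem forb_rot : ∀ a b c : ZMod 6, Forbidden a b c ↔ Forbidden b c a := by decide

set_option maxRecDepth 100000 in
theorem forb_swap : ∀ a b c : ZMod 6, Forbidden a b c ↔ Forbidden b a c := by decide

set_option maxRecDepth 100000 in
theorem exists_allowed : ∀ c t : ZMod 6, ∃ u, ¬ Forbidden c t u := by decide

set_option maxRecDepth 100000 in
theorem allowed_other : ∀ c t u : ZMod 6, (c - t).val % 2 = 1 → ¬ Forbidden c t u := by decide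

set_option maxRecDepth 100000 in
theorem card_allowed : ∀ c t : ZMod 6, (univ.filter (fun u => ¬ Forbidden c t u)).card =
    if (c - t).val % 2 = 1 then 6 else 5 := by decide

set_option maxRecDepth 100000 in
/-- if `c` may join two points of `N_t`, four values `u ≠ t` are requested -/
theorem four_le : ∀ c t : ZMod 6, ¬ Forbidden c t t →
    4 ≤ ((univ.erase t).filter (fun u => ¬ Forbidden c u u)).card := by decide

section
variable {U : Type*}

theorem exists_ne_point (R : Representation U) (x : U) : ∃ y, y ≠ x := by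
  obtain ⟨a, b, hab, -⟩ := R.atom_nonempty 0
  by_cases h : a = x
  · exact ⟨b, fun hb => hab (h.trans hb.symm)⟩
  · exact ⟨a, h⟩

theorem exists_nb (R : Representation U) (x : U) (t : ZMod 6) : ∃ z, z ≠ x ∧ R.col x z = t := by
  obtain ⟨y, hy⟩ := exists_ne_point R x
  obtain ⟨u, hu⟩ := exists_allowed (R.col x y) t
  obtain ⟨w, hw, -, h1, -⟩ := R.witness x y hy.symm t u hu
  exact ⟨w, hw, h1⟩

variable [Fintype U] [DecidableEq U] (R : Representation U)

/-- the points joined to `x` by `a_t` -/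
def nb (x : U) (t : ZMod 6) : Finset U := univ.filter (fun z => z ≠ x ∧ R.col x z = t)

theorem mem_nb {x : U} {t : ZMod 6} {z : U} : z ∈ nb R x t ↔ z ≠ x ∧ R.col x z = t := by
  simp [nb]

/-- the points of `N_t(x)` joined to `z` by `a_u` -/
def row (x : U) (t : ZMod 6) (z : U) (u : ZMod 6) : Finset U :=
  (nb R x t).filter (fun w => w ≠ z ∧ R.col w z = u)

theorem one_le_row {x z : U} (hz : z ≠ x) {t u : ZMod 6} (h : ¬ Forbidden (R.col x z) t u) :
    1 ≤ (row R x t z u).card := by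
  obtain ⟨w, hw, hwz, h1, h2⟩ := R.witness x z hz.symm t u h
  refine Finset.card_pos.mpr ⟨w, ?_⟩
  simp [row, mem_nb, hw, h1, hwz, h2]

theorem row_eq_zero {x z : U} (hz : z ≠ x) {t u : ZMod 6} (h : Forbidden (R.col x z) t u) :
    (row R x t z u).card = 0 := by
  rw [Finset.card_eq_zero, Finset.eq_empty_iff_forall_notMem]
  intro w hw
  simp only [row, mem_filter, mem_nb] at hw
  obtain ⟨⟨h1, h2⟩, h3, h4⟩ := hw
  refine R.consistent x w z h1.symm h3 hz.symm ?_
  rw [h2, h4]
  exact (forb_rot _ _ _).1 h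

theorem sum_row (x z : U) (t : ZMod 6) :
    ∑ u, (row R x t z u).card = ((nb R x t).erase z).card := by
  have h := Finset.card_eq_sum_card_fiberwise (f := fun w => R.col w z) (s := (nb R x t).erase z)
    (t := univ) (fun _ _ => by simp)
  rw [h]
  refine Finset.sum_congr rfl fun u _ => ?_
  congr 1
  ext w
  simp only [row, mem_filter, mem_erase]
  tauto

/-- sizes `m i ≥ 1` on `A`, zero outside: the sum of `m (m - 1)` is at most `e (e + 1)` for the
excess `e` -/
theorem sum_pairs_le (m : ZMod 6 → ℕ) (A : Finset (ZMod 6)) (h1 : ∀ u ∈ A, 1 ≤ m u)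
    (h0 : ∀ u ∉ A, m u = 0) (t : ZMod 6) :
    ∑ u ∈ univ.erase t, (m u * m u - m u) ≤ (∑ u, m u - A.card) * (∑ u, m u - A.card + 1) := by
  set e := ∑ u, m u - A.card with he
  have hs : ∑ u, m u = ∑ u ∈ A, m u := by
    symm
    exact Finset.sum_subset (Finset.subset_univ A) (fun u _ hu => h0 u hu)
  have hex : ∑ u ∈ A, (m u - 1) = e := by
    rw [he, hs]
    have : ∑ u ∈ A, m u = ∑ u ∈ A, ((m u - 1) + 1) :=
      Finset.sum_congr rfl fun u hu => by have := h1 u hu; omega
    rw [this, Finset.sum_add_distrib, Finset.sum_const, smul_eq_mul, mul_one]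
    omega
  calc ∑ u ∈ univ.erase t, (m u * m u - m u) ≤ ∑ u, (m u * m u - m u) :=
        Finset.sum_le_sum_of_subset (Finset.erase_subset _ _)
    _ = ∑ u ∈ A, (m u * m u - m u) := by
        symm
        refine Finset.sum_subset (Finset.subset_univ A) (fun u _ hu => ?_)
        simp [h0 u hu]
    _ ≤ ∑ u ∈ A, (m u - 1) * (e + 1) := by
        refine Finset.sum_le_sum fun u hu => ?_
        have hu1 := h1 u hu
        have hle : m u - 1 ≤ e := by
          rw [← hex]
          exact Finset.single_le_sum (f := fun u => m u - 1) (fun _ _ => Nat.zero_le _) hu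
        obtain ⟨k, hk⟩ : ∃ k, m u = k + 1 := ⟨m u - 1, by omega⟩
        rw [hk] at hle ⊢
        have : (k + 1) * (k + 1) - (k + 1) = k * (k + 1) := by
          rw [← Nat.sub_one_mul]; simp
        rw [this]
        simp only [Nat.add_sub_cancel] at hle ⊢
        exact Nat.mul_le_mul_left _ (by omega)
    _ = e * (e + 1) := by rw [← Finset.sum_mul, hex]

/-- the bound for the row of `z` on `N_t(x)` when `x`, `z` are joined by `t + j` -/
def H (k : ℕ) (j : ZMod 6) : ℕ :=
  if j.val % 2 = 1 then (k - 6) * (k - 6 + 1) else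
    if j = 0 then (k - 1 - 5) * (k - 1 - 5 + 1) else (k - 5) * (k - 5 + 1)

theorem row_le (x z : U) (hz : z ≠ x) (t : ZMod 6) :
    ∑ u ∈ univ.erase t, ((row R x t z u).card * (row R x t z u).card - (row R x t z u).card) ≤
      H (nb R x t).card (R.col x z - t) := by
  have h := sum_pairs_le (fun u => (row R x t z u).card)
    (univ.filter (fun u => ¬ Forbidden (R.col x z) t u))
    (fun u hu => one_le_row R hz (by simpa using hu))
    (fun u hu => row_eq_zero R hz (by simpa using hu)) t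
  simp only [sum_row, card_allowed] at h
  refine h.trans (le_of_eq ?_)
  unfold H
  by_cases h1 : (R.col x z - t).val % 2 = 1
  · have hne : z ∉ nb R x t := by
      rw [mem_nb]; rintro ⟨-, h2⟩
      rw [h2, sub_self] at h1; simp at h1
    rw [Finset.erase_eq_of_notMem hne]
    simp [h1]
  · by_cases h2 : R.col x z - t = 0
    · have hin : z ∈ nb R x t := by
        rw [mem_nb]; exact ⟨hz, sub_eq_zero.mp h2⟩
      rw [Finset.card_erase_of_mem hin]
      simp [h2]
    · have hne : z ∉ nb R x t := by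
        rw [mem_nb]; rintro ⟨-, h3⟩
        exact h2 (by rw [h3, sub_self])
      rw [Finset.erase_eq_of_notMem hne]
      simp [h1, h2]

theorem pairs_ge (x : U) (t : ZMod 6) :
    4 * ((nb R x t).card * (nb R x t).card - (nb R x t).card) ≤
      ∑ z ∈ univ.erase x, ∑ u ∈ univ.erase t,
        ((row R x t z u).card * (row R x t z u).card - (row R x t z u).card) := by
  classical
  set N := nb R x t with hN
  have e1 : ∀ z u, (row R x t z u).card * (row R x t z u).card - (row R x t z u).card =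
      ∑ p ∈ N.offDiag, if (p.1 ≠ z ∧ R.col p.1 z = u) ∧ (p.2 ≠ z ∧ R.col p.2 z = u)
        then 1 else 0 := by
    intro z u
    rw [← Finset.offDiag_card, ← Finset.sum_filter, Finset.sum_const, smul_eq_mul, mul_one]
    congr 1
    ext ⟨a, b⟩
    simp only [row, mem_offDiag, mem_filter, ← hN]
    tauto
  simp only [e1]
  rw [← Finset.offDiag_card]
  have e2 : ∑ z ∈ univ.erase x, ∑ u ∈ univ.erase t, ∑ p ∈ N.offDiag,
      (if (p.1 ≠ z ∧ R.col p.1 z = u) ∧ (p.2 ≠ z ∧ R.col p.2 z = u) then 1 else 0) =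
      ∑ p ∈ N.offDiag, ∑ u ∈ univ.erase t, ∑ z ∈ univ.erase x,
      (if (p.1 ≠ z ∧ R.col p.1 z = u) ∧ (p.2 ≠ z ∧ R.col p.2 z = u) then 1 else 0) := by
    calc _ = ∑ z ∈ univ.erase x, ∑ p ∈ N.offDiag, ∑ u ∈ univ.erase t, _ :=
          Finset.sum_congr rfl fun z _ => Finset.sum_comm
      _ = ∑ p ∈ N.offDiag, ∑ z ∈ univ.erase x, ∑ u ∈ univ.erase t, _ := Finset.sum_comm
      _ = _ := Finset.sum_congr rfl fun p _ => Finset.sum_comm
  rw [e2, mul_comm, ← smul_eq_mul, ← Finset.sum_const]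
  refine Finset.sum_le_sum fun p hp => ?_
  obtain ⟨w, w'⟩ := p
  rw [mem_offDiag] at hp
  obtain ⟨hw, hw', hne⟩ := hp
  simp only at hw hw' hne
  rw [hN, mem_nb] at hw hw'
  have hc : ¬ Forbidden (R.col w w') t t := by
    have := R.consistent w x w' hw.1 hw'.1.symm hne
    rw [R.symm w x, hw.2, hw'.2] at this
    intro h
    exact this ((forb_rot _ _ _).1 h)
  refine (four_le _ _ hc).trans ?_
  rw [Finset.card_eq_sum_ones, Finset.sum_filter]
  refine Finset.sum_le_sum fun u hu => ?_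
  by_cases hf : ¬ Forbidden (R.col w w') u u
  · rw [if_pos hf]
    obtain ⟨z, hz1, hz2, hz3, hz4⟩ := R.witness w w' hne u u hf
    have hzx : z ≠ x := by
      intro h
      rw [h, R.symm w x, hw.2] at hz3
      simp only [mem_erase, mem_univ, and_true] at hu
      exact hu hz3.symm
    calc 1 = (if (w ≠ z ∧ R.col w z = u) ∧ (w' ≠ z ∧ R.col w' z = u) then 1 else 0) := by
            rw [if_pos]
            exact ⟨⟨hz1.symm, hz3⟩, hz2.symm, by rw [R.symm]; exact hz4⟩
      _ ≤ _ := Finset.single_le_sum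
          (f := fun z => if (w ≠ z ∧ R.col w z = u) ∧ (w' ≠ z ∧ R.col w' z = u) then 1 else 0)
          (fun _ _ => Nat.zero_le _) (by simp [hzx])
  · rw [if_neg hf]
    exact Nat.zero_le _

theorem sum_col (x : U) (h : ZMod 6 → ℕ) :
    ∑ z ∈ univ.erase x, h (R.col x z) = ∑ c, (nb R x c).card * h c := by
  have := Finset.sum_fiberwise (univ.erase x) (fun z => R.col x z) (fun z => h (R.col x z))
  rw [← this]
  refine Finset.sum_congr rfl fun c _ => ?_
  have e : (univ.erase x).filter (fun z => R.col x z = c) = nb R x c := by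
    ext z; simp [mem_nb]
  rw [e, Finset.sum_congr rfl (g := fun _ => h c), Finset.sum_const, smul_eq_mul]
  intro z hz
  rw [mem_nb] at hz
  simp [hz.2]

/-- **main inequality** -/
theorem main_ineq (x : U) (t : ZMod 6) :
    4 * ((nb R x t).card * (nb R x t).card - (nb R x t).card) ≤
      ∑ c, (nb R x c).card * H (nb R x t).card (c - t) := by
  refine (pairs_ge R x t).trans ?_
  rw [← sum_col R x (fun c => H (nb R x t).card (c - t))]
  refine Finset.sum_le_sum fun z hz => ?_
  exact row_le R x z (by simpa using hz) t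

theorem six_le (x : U) (t : ZMod 6) : 6 ≤ (nb R x t).card := by
  obtain ⟨z, hz, hc⟩ := exists_nb R x (t + 1)
  have h := sum_row R x z t
  have hodd : (R.col x z - t).val % 2 = 1 := by
    rw [hc, add_sub_cancel_left]; rfl
  have hne : z ∉ nb R x t := by
    rw [mem_nb]; rintro ⟨-, h2⟩
    rw [h2, sub_self] at hodd; simp at hodd
  rw [Finset.erase_eq_of_notMem hne] at h
  rw [← h]
  calc 6 = ∑ _u : ZMod 6, 1 := by simp
    _ ≤ _ := Finset.sum_le_sum fun u _ => one_le_row R hz (allowed_other _ _ _ hodd)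

theorem card_eq (x : U) : Fintype.card U = 1 + ∑ c, (nb R x c).card := by
  have h := sum_col R x (fun _ => 1)
  simp only [mul_one, Finset.sum_const, smul_eq_mul] at h
  rw [← h, Finset.card_erase_of_mem (mem_univ x), Finset.card_univ]
  have : 0 < Fintype.card U := Fintype.card_pos_iff.mpr ⟨x⟩
  omega

end

/-- the arithmetic -/
theorem arith (d : ZMod 6 → ℕ) (h6 : ∀ t, 6 ≤ d t)
    (hm : ∀ t, 4 * (d t * d t - d t) ≤ ∑ c, d c * H (d t) (c - t)) : 48 ≤ ∑ c, d c := by
  have hsum : ∀ f : ZMod 6 → ℕ, ∑ c, f c = f 0 + f 1 + f 2 + f 3 + f 4 + f 5 := by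
    intro f
    exact Fin.sum_univ_six f
  have hH : ∀ k : ℕ, H k 0 = (k - 1 - 5) * (k - 1 - 5 + 1) ∧ H k 1 = (k - 6) * (k - 6 + 1) ∧
      H k 2 = (k - 5) * (k - 5 + 1) ∧ H k 3 = (k - 6) * (k - 6 + 1) ∧
      H k 4 = (k - 5) * (k - 5 + 1) ∧ H k 5 = (k - 6) * (k - 6 + 1) := by
    intro k
    refine ⟨rfl, rfl, rfl, rfl, rfl, rfl⟩
  have h6' : ∀ t, d t = 6 → 60 ≤ d (t + 2) + d (t + 4) := by
    intro t ht
    have := hm t
    rw [← Equiv.sum_comp (Equiv.addRight t)] at this
    simp only [Equiv.coe_addRight, add_sub_cancel_right] at this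
    rw [hsum, ht] at this
    obtain ⟨a0, a1, a2, a3, a4, a5⟩ := hH 6
    rw [a0, a1, a2, a3, a4, a5] at this
    rw [add_comm t 2, add_comm t 4]
    omega
  have h7' : ∀ t, d t = 7 →
      77 ≤ d (t + 1) + d (t + 3) + d (t + 5) + 3 * (d (t + 2) + d (t + 4)) := by
    intro t ht
    have := hm t
    rw [← Equiv.sum_comp (Equiv.addRight t)] at this
    simp only [Equiv.coe_addRight, add_sub_cancel_right] at this
    rw [hsum, ht] at this
    obtain ⟨a0, a1, a2, a3, a4, a5⟩ := hH 7
    rw [a0, a1, a2, a3, a4, a5, zero_add, ht] at this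
    rw [add_comm t 1, add_comm t 2, add_comm t 3, add_comm t 4, add_comm t 5]
    omega
  rw [hsum]
  have s0 := h6 0
  have s1 := h6 1
  have s2 := h6 2
  have s3 := h6 3
  have s4 := h6 4
  have s5 := h6 5
  have p0 : d 0 = 6 → 60 ≤ d 2 + d 4 := h6' 0
  have p1 : d 1 = 6 → 60 ≤ d 3 + d 5 := h6' 1
  have p2 : d 2 = 6 → 60 ≤ d 4 + d 0 := h6' 2
  have p3 : d 3 = 6 → 60 ≤ d 5 + d 1 := h6' 3
  have p4 : d 4 = 6 → 60 ≤ d 0 + d 2 := h6' 4
  have p5 : d 5 = 6 → 60 ≤ d 1 + d 3 := h6' 5
  have q0 : d 0 = 7 → 77 ≤ d 1 + d 3 + d 5 + 3 * (d 2 + d 4) := h7' 0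
  have q1 : d 1 = 7 → 77 ≤ d 2 + d 4 + d 0 + 3 * (d 3 + d 5) := h7' 1
  have q2 : d 2 = 7 → 77 ≤ d 3 + d 5 + d 1 + 3 * (d 4 + d 0) := h7' 2
  have q3 : d 3 = 7 → 77 ≤ d 4 + d 0 + d 2 + 3 * (d 5 + d 1) := h7' 3
  have q4 : d 4 = 7 → 77 ≤ d 5 + d 1 + d 3 + 3 * (d 0 + d 2) := h7' 4
  have q5 : d 5 = 7 → 77 ≤ d 0 + d 2 + d 4 + 3 * (d 1 + d 3) := h7' 5
  omega

theorem forty_nine {U : Type*} [Fintype U] (R : Representation U) : 49 ≤ Fintype.card U := by
  classical
  obtain ⟨x, -, -, -⟩ := R.atom_nonempty 0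
  rw [card_eq R x]
  have := arith (fun t => (nb R x t).card) (six_le R x) (main_ineq R x)
  omega

end Pool.Agent.AsixH70
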