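import Mathlib

/-!
# Representations of the relation algebra `A_6([i,i,i+2])`

The combinatorial form of the problem file: a complete graph whose edges are coloured by the six
atoms `a_0, ..., a_5` (indices in `ZMod 6`).
-/

namespace Pool.Agent.AsixH70

/-- `{a, b, c}` is one of the six forbidden diversity cycles `{i, i, i + 2}`. -/
def Forbidden (a b c : ZMod 6) : Prop :=
  ∃ i : ZMod 6, ({a, b, c} : Multiset (ZMod 6)) = {i, i, i + 2}

/-- A representation of `A_6([i,i,i+2])` on the set `U`: distinct points `x`, `y` are joined by the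
atom `col x y`. -/
structure Representation (U : Type*) where
  /-- the atom joining two distinct points -/
  col : U → U → ZMod 6
  symm : ∀ x y, col x y = col y x
  atom_nonempty : ∀ s, ∃ x y, x ≠ y ∧ col x y = s
  consistent : ∀ x y z, x ≠ y → y ≠ z → x ≠ z → ¬ Forbidden (col x y) (col y z) (col x z)
  witness : ∀ x y, x ≠ y → ∀ t u, ¬ Forbidden (col x y) t u →
    ∃ w, w ≠ x ∧ w ≠ y ∧ col x w = t ∧ col w y = u

instance decForbidden (a b c : ZMod 6) : Decidable (Forbidden a b c) := by
  unfold Forbidden; infer_instance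

set_option maxRecDepth 100000 in
theorem forbidden_iff : ∀ a b c : ZMod 6, Forbidden a b c ↔
    ((a.val % 2 = 0 ∧ b.val % 2 = 0 ∧ c.val % 2 = 0 ∧ a + b + c = 2) ∨
     (a.val % 2 = 1 ∧ b.val % 2 = 1 ∧ c.val % 2 = 1 ∧ a + b + c = 5)) := by
  decide

end Pool.Agent.AsixH70
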