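import Pool.Agent.AsixH70.Defs

namespace Pool.Agent.AsixH70

/-- a consistent colouring of the complete graph on `n` points by the six atoms -/
def IsNetwork {n : ℕ} (f : Fin n → Fin n → ZMod 6) : Prop :=
  (∀ i j, f i j = f j i) ∧
    ∀ i j k, i ≠ j → j ≠ k → i ≠ k → ¬ Forbidden (f i j) (f j k) (f i k)

/-- every finite consistent network embeds -/
def FullyUniversal {U : Type*} (R : Representation U) : Prop :=
  ∀ (n : ℕ) (f : Fin n → Fin n → ZMod 6), IsNetwork f →
    ∃ g : Fin n → U, Function.Injective g ∧ ∀ i j, i ≠ j → R.col (g i) (g j) = f i j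

/-- every isomorphism between finite substructures extends to an automorphism -/
def Homogeneous {U : Type*} (R : Representation U) : Prop :=
  ∀ (n : ℕ) (g h : Fin n → U), Function.Injective g → Function.Injective h →
    (∀ i j, i ≠ j → R.col (g i) (g j) = R.col (h i) (h j)) →
    ∃ σ : Equiv.Perm U, (∀ x y, x ≠ y → R.col (σ x) (σ y) = R.col x y) ∧ ∀ i, σ (g i) = h i

/-- seven points: `y_0, ..., y_5` and a seventh point joined to `y_i` by `a_(i+s)` -/
def net (s : ZMod 6) (i j : Fin 7) : ZMod 6 :=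
  if i = 6 then (j.val : ZMod 6) + s else
    if j = 6 then (i.val : ZMod 6) + s else
      if i.val % 2 = 0 ∧ j.val % 2 = 0 then 1 else 0

set_option maxRecDepth 100000 in
theorem net_ok' : ∀ i j k : Fin 7, i ≠ j → j ≠ k → i ≠ k →
    (¬ (((net 0 i j).val % 2 = 0 ∧ (net 0 j k).val % 2 = 0 ∧ (net 0 i k).val % 2 = 0 ∧
      net 0 i j + net 0 j k + net 0 i k = 2) ∨
     ((net 0 i j).val % 2 = 1 ∧ (net 0 j k).val % 2 = 1 ∧ (net 0 i k).val % 2 = 1 ∧
      net 0 i j + net 0 j k + net 0 i k = 5))) ∧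
    (¬ (((net 2 i j).val % 2 = 0 ∧ (net 2 j k).val % 2 = 0 ∧ (net 2 i k).val % 2 = 0 ∧
      net 2 i j + net 2 j k + net 2 i k = 2) ∨
     ((net 2 i j).val % 2 = 1 ∧ (net 2 j k).val % 2 = 1 ∧ (net 2 i k).val % 2 = 1 ∧
      net 2 i j + net 2 j k + net 2 i k = 5))) := by decide

set_option maxRecDepth 100000 in
theorem net_symm : ∀ i j : Fin 7, net 0 i j = net 0 j i ∧ net 2 i j = net 2 j i := by decide

theorem net_network : IsNetwork (net 0) ∧ IsNetwork (net 2) := by
  refine ⟨⟨fun i j => (net_symm i j).1, fun i j k h1 h2 h3 => ?_⟩,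
    ⟨fun i j => (net_symm i j).2, fun i j k h1 h2 h3 => ?_⟩⟩
  · rw [forbidden_iff]; exact (net_ok' i j k h1 h2 h3).1
  · rw [forbidden_iff]; exact (net_ok' i j k h1 h2 h3).2

set_option maxRecDepth 100000 in
theorem kill_all : ∀ c : ZMod 6, ∃ i : Fin 6, Forbidden (net 0 6 i.castSucc)
    (net 2 i.castSucc 6) c := by decide

theorem net_base : ∀ i j : Fin 6, i ≠ j →
    net 0 i.castSucc j.castSucc = net 2 i.castSucc j.castSucc := by decide

theorem no_normal {U : Type*} (R : Representation U) : ¬ (FullyUniversal R ∧ Homogeneous R) := by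
  rintro ⟨hu, hh⟩
  obtain ⟨g, hg, hgc⟩ := hu 7 (net 0) net_network.1
  obtain ⟨h, hhinj, hhc⟩ := hu 7 (net 2) net_network.2
  obtain ⟨σ, hσ, hσg⟩ := hh 6 (fun i => h i.castSucc) (fun i => g i.castSucc)
    (hhinj.comp (Fin.castSucc_injective 6)) (hg.comp (Fin.castSucc_injective 6)) (by
      intro i j hij
      have hij' : i.castSucc ≠ j.castSucc := fun e => hij (Fin.castSucc_injective 6 e)
      rw [hgc _ _ hij', hhc _ _ hij', net_base i j hij])
  have hne6 : ∀ i : Fin 6, i.castSucc ≠ (6 : Fin 7) := by decide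
  have h1 : ∀ i : Fin 6, R.col (g 6) (g i.castSucc) = net 0 6 i.castSucc :=
    fun i => hgc _ _ (hne6 i).symm
  have h2 : ∀ i : Fin 6, R.col (g i.castSucc) (σ (h 6)) = net 2 i.castSucc 6 := by
    intro i
    have e : σ (h i.castSucc) = g i.castSucc := hσg i
    rw [← e, hσ _ _ (fun e => hne6 i (hhinj e)), hhc _ _ (hne6 i)]
  have hne : g 6 ≠ σ (h 6) := by
    intro e
    have a := h1 0
    have b := h2 0
    rw [← e, R.symm, a] at b
    revert b
    decide
  obtain ⟨i, hi⟩ := kill_all (R.col (g 6) (σ (h 6)))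
  have h3 : g i.castSucc ≠ σ (h 6) := by
    have e : σ (h i.castSucc) = g i.castSucc := hσg i
    rw [← e]
    exact fun e => hne6 i (hhinj (σ.injective e))
  have := R.consistent (g 6) (g i.castSucc) (σ (h 6)) (fun e => hne6 i (hg e).symm) h3 hne
  rw [h1, h2] at this
  exact this hi

end Pool.Agent.AsixH70
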