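import Pool.Agent.AsixH70.Box
import Pool.Agent.AsixH70.Count

namespace Pool.Agent.AsixH70
open Finset

variable {U : Type*} (R : Representation U)

/-- at most `|W|^6 / 9` points see all six atoms on a finite set `W` -/
theorem see_all (W F : Finset U) (hF : ∀ z ∈ F, ∀ u, ∃ w ∈ W, w ≠ z ∧ R.col z w = u) :
    9 * F.card ≤ W.card ^ 6 := by
  classical
  rcases F.eq_empty_or_nonempty with rfl | ⟨z0, hz0⟩
  · simp
  obtain ⟨w0, hw0, -⟩ := hF z0 hz0 0
  have hW : 0 < (W.card : ℝ) := by
    exact_mod_cast Finset.card_pos.mpr ⟨w0, hw0⟩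
  have hbox := box_ineq R (fun A => ((W.filter (fun w => w ∈ A)).card : ℝ) / W.card)
    (fun A => by positivity)
    (by simp [hW.ne'])
    (by
      intro A B hAB
      rw [← add_div, ← Nat.cast_add, ← Finset.card_union_of_disjoint]
      · congr 3
        ext w; simp only [mem_filter, mem_union, Set.mem_union]; tauto
      · rw [Finset.disjoint_left]
        intro w h1 h2
        simp only [mem_filter] at h1 h2
        exact Set.disjoint_left.mp hAB h1.2 h2.2) F
  have h3 : 9 * ((F.card : ℝ) * (1 / (W.card : ℝ)) ^ 6) ≤ 1 := by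
    refine le_trans ?_ hbox
    refine mul_le_mul_of_nonneg_left ?_ (by norm_num)
    rw [← nsmul_eq_mul, ← Finset.sum_const]
    refine Finset.sum_le_sum fun z hz => ?_
    calc (1 / (W.card : ℝ)) ^ 6 = ∏ _t : ZMod 6, (1 / (W.card : ℝ)) := by simp
      _ ≤ _ := by
        refine Finset.prod_le_prod (fun _ _ => by positivity) fun t _ => ?_
        refine div_le_div_of_nonneg_right ?_ hW.le
        obtain ⟨w, hw, h1, h2⟩ := hF z hz t
        refine Nat.one_le_cast.mpr ?_
        exact Finset.card_pos.mpr ⟨w, by simp [hw, h1, h2]⟩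
  rw [one_div, inv_pow, ← mul_assoc, ← div_eq_mul_inv, div_le_one (by positivity)] at h3
  exact_mod_cast h3

/-- if `N_t(x)` has `k` elements then at most `k^6 / 9` points are joined to `x` by an atom of the
other parity -/
theorem other_finite (x : U) (t : ZMod 6) (hfin : {z | z ≠ x ∧ R.col x z = t}.Finite) :
    {y | y ≠ x ∧ (R.col x y - t).val % 2 = 1}.Finite ∧
    9 * {y | y ≠ x ∧ (R.col x y - t).val % 2 = 1}.ncard ≤
      {z | z ≠ x ∧ R.col x z = t}.ncard ^ 6 := by
  classical
  set N := {z | z ≠ x ∧ R.col x z = t} with hN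
  set Y := {y | y ≠ x ∧ (R.col x y - t).val % 2 = 1} with hY
  have key : ∀ F : Finset U, (F : Set U) ⊆ Y → 9 * F.card ≤ N.ncard ^ 6 := by
    intro F hF
    have := see_all R hfin.toFinset F (by
      intro z hz u
      have hzY := hF hz
      obtain ⟨w, hw1, hw2, h1, h2⟩ := R.witness x z hzY.1.symm t u (allowed_other _ _ _ hzY.2)
      refine ⟨w, ?_, hw2, by rw [R.symm]; exact h2⟩
      simp only [Set.Finite.mem_toFinset]
      exact ⟨hw1, h1⟩)
    rwa [← Set.ncard_eq_toFinset_card _ hfin] at this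
  have hYfin : Y.Finite := by
    by_contra hinf
    obtain ⟨F, hF, hc⟩ := Set.Infinite.exists_subset_card_eq hinf (N.ncard ^ 6 + 1)
    have := key F hF
    omega
  refine ⟨hYfin, ?_⟩
  have := key hYfin.toFinset (by simp)
  rwa [← Set.ncard_eq_toFinset_card _ hYfin] at this

set_option maxRecDepth 100000 in
theorem parity_split : ∀ c t : ZMod 6, (c - t).val % 2 = 1 ∨ (c - (t + 1)).val % 2 = 1 := by
  decide

/-- six elements -/
theorem six_le_ncard (x : U) (t : ZMod 6) (hfin : {z | z ≠ x ∧ R.col x z = t}.Finite) :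
    6 ≤ {z | z ≠ x ∧ R.col x z = t}.ncard := by
  classical
  obtain ⟨z, hz, hc⟩ := exists_nb R x (t + 1)
  have hodd : (R.col x z - t).val % 2 = 1 := by
    rw [hc, add_sub_cancel_left]; rfl
  have h : ∀ u, ∃ w, w ∈ hfin.toFinset ∧ R.col w z = u := by
    intro u
    obtain ⟨w, h1, h2, h3, h4⟩ := R.witness x z hz.symm t u (allowed_other _ _ _ hodd)
    exact ⟨w, by simp [h1, h3], h4⟩
  choose f hf1 hf2 using h
  have hinj : Function.Injective f := fun a b hab => by rw [← hf2 a, ← hf2 b, hab]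
  have := Finset.card_le_card_of_injOn f (s := (univ : Finset (ZMod 6))) (t := hfin.toFinset)
    (fun a _ => hf1 a) (fun a _ b _ h => hinj h)
  rw [← Set.ncard_eq_toFinset_card _ hfin] at this
  simpa using this

theorem valency_bound (x : U) (t : ZMod 6) (hfin : {z | z ≠ x ∧ R.col x z = t}.Finite) :
    Finite U ∧ Nat.card U ≤ {z | z ≠ x ∧ R.col x z = t}.ncard ^ 36 := by
  classical
  set k := {z | z ≠ x ∧ R.col x z = t}.ncard with hk
  have hk6 : 6 ≤ k := six_le_ncard R x t hfin
  obtain ⟨f1, c1⟩ := other_finite R x t hfin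
  have hsub : {z | z ≠ x ∧ R.col x z = t + 1} ⊆ {y | y ≠ x ∧ (R.col x y - t).val % 2 = 1} := by
    rintro y ⟨h1, h2⟩
    refine ⟨h1, ?_⟩
    rw [h2, add_sub_cancel_left]; rfl
  have f2 := f1.subset hsub
  have c2 := Set.ncard_le_ncard hsub f1
  obtain ⟨f3, c3⟩ := other_finite R x (t + 1) f2
  set A := {y | y ≠ x ∧ (R.col x y - t).val % 2 = 1} with hA
  set B := {y | y ≠ x ∧ (R.col x y - (t + 1)).val % 2 = 1} with hB
  have huniv : (Set.univ : Set U) = {x} ∪ (A ∪ B) := by
    ext y
    simp only [Set.mem_univ, Set.mem_union, Set.mem_singleton_iff, true_iff]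
    by_cases h : y = x
    · exact Or.inl h
    · right
      rcases parity_split (R.col x y) t with h1 | h1
      · exact Or.inl ⟨h, h1⟩
      · exact Or.inr ⟨h, h1⟩
  have hfU : (Set.univ : Set U).Finite := by
    rw [huniv]
    exact (Set.finite_singleton x).union (f1.union f3)
  have hFin : Finite U := Set.finite_univ_iff.mp hfU
  refine ⟨hFin, ?_⟩
  rw [← Set.ncard_univ, huniv]
  have e1 := Set.ncard_union_le {x} (A ∪ B)
  have e2 := Set.ncard_union_le A B
  rw [Set.ncard_singleton] at e1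
  set a := A.ncard with ha
  set m := {z | z ≠ x ∧ R.col x z = t + 1}.ncard with hm
  have hma : m ^ 6 ≤ a ^ 6 := Nat.pow_le_pow_left c2 6
  have hak : (9 * a) ^ 6 ≤ (k ^ 6) ^ 6 := Nat.pow_le_pow_left c1 6
  have hk36 : (k ^ 6) ^ 6 = k ^ 36 := by ring
  have h96 : (9 * a) ^ 6 = 531441 * a ^ 6 := by ring
  have hc1 : 9 * a ≤ k ^ 6 := c1
  have hc2 : m ≤ a := c2
  have hc3 : 9 * B.ncard ≤ m ^ 6 := c3
  have hk6' : k ^ 6 ≤ k ^ 36 := Nat.pow_le_pow_right (by omega) (by norm_num)
  have hkbig : 6 ^ 36 ≤ k ^ 36 := Nat.pow_le_pow_left hk6 36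
  have h636 : (1000 : ℕ) ≤ 6 ^ 36 := by norm_num
  omega

end Pool.Agent.AsixH70
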